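import Mathlib

set_option autoImplicit false

/-!
# Spaces in which the intersection of two connected sets is connected

Basic structure: the components of the complement of a closed connected set are open and have exactly one
boundary point.
-/

open Set Filter Topology

namespace Pool.Agent.H.MP_0e7155_gt

variable {X : Type*}

/-- The intersection of two preconnected sets is preconnected. -/
def CIP (X : Type*) [TopologicalSpace X] : Prop :=
  ∀ A B : Set X, IsPreconnected A → IsPreconnected B → IsPreconnected (A ∩ B)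

section topological

variable [TopologicalSpace X] [PreconnectedSpace X]

theorem preconnected_union_of_open {K W : Set X} (hK : IsPreconnected K) (hKc : IsClosed K)
    (hKne : K.Nonempty) (hW : IsOpen W) (hWK : W ⊆ Kᶜ) (hW' : IsOpen (Kᶜ \ W)) :
    IsPreconnected (K ∪ W) := by
  have hKWc : IsClosed (K ∪ W) := by
    have : (K ∪ W) = (Kᶜ \ W)ᶜ := by
      ext x; simp only [mem_union, mem_compl_iff, Set.mem_sdiff]; tauto
    rw [this]; exact hW'.isClosed_compl
  rw [isPreconnected_iff_subset_of_disjoint_closed]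
  -- the symmetric core
  have key : ∀ u v : Set X, IsClosed u → IsClosed v → K ∪ W ⊆ u ∪ v → (K ∪ W) ∩ (u ∩ v) = ∅ →
      K ⊆ u → K ∪ W ⊆ u := by
    intro u v hu hv hcov hdis hKu
    have hQeq : (K ∪ W) ∩ v = W ∩ uᶜ := by
      ext x
      constructor
      · rintro ⟨hx, hxv⟩
        have hxu : x ∉ u := fun h => by
          have : x ∈ (K ∪ W) ∩ (u ∩ v) := ⟨hx, h, hxv⟩
          rw [hdis] at this; exact this
        rcases hx with hx | hx
        · exact absurd (hKu hx) hxu
        · exact ⟨hx, hxu⟩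
      · rintro ⟨hx, hxu⟩
        refine ⟨Or.inr hx, ?_⟩
        rcases hcov (Or.inr hx) with h | h
        · exact absurd h hxu
        · exact h
    have hclopen : IsClopen ((K ∪ W) ∩ v) := by
      refine ⟨hKWc.inter hv, ?_⟩
      rw [hQeq]
      exact hW.inter hu.isOpen_compl
    rcases isClopen_iff.1 hclopen with h | h
    · intro x hx
      rcases hcov hx with h' | h'
      · exact h'
      · have : x ∈ (K ∪ W) ∩ v := ⟨hx, h'⟩
        rw [h] at this; exact absurd this (notMem_empty x)
    · obtain ⟨k, hk⟩ := hKne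
      have : k ∈ (K ∪ W) ∩ v := by rw [h]; trivial
      rw [hQeq] at this
      exact absurd hk (hWK this.1)
  intro u v hu hv hcov hdis
  have h1 := (isPreconnected_iff_subset_of_disjoint_closed.1 hK) u v hu hv
    (subset_union_left.trans hcov)
    (by
      apply Set.eq_empty_of_subset_empty
      rw [← hdis]
      exact inter_subset_inter_left _ subset_union_left)
  rcases h1 with h1 | h1
  · exact Or.inl (key u v hu hv hcov hdis h1)
  · refine Or.inr (key v u hv hu (by rwa [union_comm v u]) (by rwa [inter_comm v u]) h1)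

end topological

section metric

set_option linter.unusedSectionVars false
set_option linter.unusedVariables false

variable [MetricSpace X] [PreconnectedSpace X]

/-- The basic contradiction: pairwise disjoint pieces attached to a closed connected set `K` cannot
accumulate at a point outside of `K`. -/
theorem no_accumulation (cip : CIP X) {K : Set X} (hK : IsPreconnected K) (hKc : IsClosed K)
    (hKne : K.Nonempty) {y : X} (hy : y ∉ K) (D : ℕ → Set X) (z : ℕ → X)
    (hD : ∀ i j, i ≠ j → Disjoint (D i) (D j)) (hDK : ∀ i, IsPreconnected (K ∪ D i))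
    (hyD : ∀ i, y ∉ D i) (hz : ∀ i, z i ∈ D i) (hlim : Tendsto z atTop (𝓝 y))
    (hDd : ∀ i, Disjoint (D i) K) : False := by
  obtain ⟨k, hk⟩ := hKne
  -- the two unions
  have hunion : ∀ f : ℕ → ℕ, IsPreconnected (⋃ i, (K ∪ D (f i))) := fun f =>
    isPreconnected_iUnion ⟨k, mem_iInter.2 fun i => Or.inl hk⟩ fun i => hDK (f i)
  have hins : ∀ f : ℕ → ℕ, Tendsto f atTop atTop → IsPreconnected (insert y (⋃ i, (K ∪ D (f i)))) := by
    intro f hf
    refine (hunion f).subset_closure (subset_insert _ _) ?_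
    rw [insert_subset_iff]
    refine ⟨?_, subset_closure⟩
    refine mem_closure_of_tendsto (hlim.comp hf) (Eventually.of_forall fun i => ?_)
    exact mem_iUnion.2 ⟨i, Or.inr (hz (f i))⟩
  have h1 := hins (fun i => 2 * i) (tendsto_atTop_mono (fun i => by simp only [id]; omega) tendsto_id)
  have h2 := hins (fun i => 2 * i + 1)
    (tendsto_atTop_mono (fun i => by simp only [id]; omega) tendsto_id)
  have h3 := cip _ _ h1 h2
  have heq : insert y (⋃ i, (K ∪ D (2 * i))) ∩ insert y (⋃ i, (K ∪ D (2 * i + 1))) = insert y K := by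
    ext x
    simp only [mem_inter_iff, mem_insert_iff, mem_iUnion, mem_union]
    constructor
    · rintro ⟨h | ⟨i, h | h⟩, h'⟩
      · exact Or.inl h
      · exact Or.inr h
      · rcases h' with h' | ⟨j, h' | h'⟩
        · exact Or.inl h'
        · exact Or.inr h'
        · exact absurd h' (Set.disjoint_left.1 (hD (2 * i) (2 * j + 1) (by omega)) h)
    · rintro (h | h)
      · exact ⟨Or.inl h, Or.inl h⟩
      · exact ⟨Or.inr ⟨0, Or.inl h⟩, Or.inr ⟨0, Or.inl h⟩⟩
  have h4 : IsPreconnected (insert y K) := by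
    rw [← heq]; exact h3
  rw [isPreconnected_closed_iff] at h4
  obtain ⟨w, hw, hw1, hw2⟩ := h4 {y} K isClosed_singleton hKc (fun x hx => hx)
    ⟨y, mem_insert _ _, rfl⟩ ⟨k, mem_insert_of_mem _ hk, hk⟩
  rw [mem_singleton_iff] at hw1
  subst hw1
  exact hy hw2

/-- The clopen neighbourhoods of `y` in the complement of `K`. -/
def clopenNhds (K : Set X) (y : X) : Set (Set X) :=
  {W | IsOpen W ∧ IsOpen (Kᶜ \ W) ∧ W ⊆ Kᶜ ∧ y ∈ W}

theorem quasi_mem_nhds (cip : CIP X) {K : Set X} (hK : IsPreconnected K) (hKc : IsClosed K)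
    (hKne : K.Nonempty) {y : X} (hy : y ∉ K) : ⋂₀ (clopenNhds K y) ∈ 𝓝 y := by
  by_contra hQ
  obtain ⟨u, hu⟩ := (𝓝 y).exists_antitone_basis
  -- one step of the construction
  have step : ∀ (k : ℕ) (W : Set X), ∃ z : X, ∃ W' : Set X, W ∈ clopenNhds K y →
      (W' ∈ clopenNhds K y ∧ z ∈ W ∧ z ∈ u k ∧ z ∉ W' ∧ W' ⊆ W) := by
    intro k W
    by_cases hW : W ∈ clopenNhds K y
    swap
    · exact ⟨y, W, fun h => absurd h hW⟩
    have h1 : W ∩ u k ∈ 𝓝 y := inter_mem (hW.1.mem_nhds hW.2.2.2) (hu.mem k)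
    have h2 : ¬ (W ∩ u k ⊆ ⋂₀ (clopenNhds K y)) := fun h => hQ (mem_of_superset h1 h)
    obtain ⟨z, hz, hz'⟩ := not_subset.1 h2
    rw [mem_sInter] at hz'
    push Not at hz'
    obtain ⟨W1, hW1, hzW1⟩ := hz'
    refine ⟨z, W ∩ W1, fun _ => ⟨⟨hW.1.inter hW1.1, ?_, fun x hx => hW.2.2.1 hx.1, hW.2.2.2,
      hW1.2.2.2⟩, hz.1, hz.2, fun h => hzW1 h.2, inter_subset_left⟩⟩
    have : Kᶜ \ (W ∩ W1) = (Kᶜ \ W) ∪ (Kᶜ \ W1) := by
      ext x; simp only [Set.mem_sdiff, mem_inter_iff, mem_union]; tauto
    rw [this]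
    exact hW.2.1.union hW1.2.1
  choose zf Wf hstep using step
  have huniv : Kᶜ ∈ clopenNhds K y := by
    refine ⟨hKc.isOpen_compl, ?_, subset_rfl, hy⟩
    rw [Set.sdiff_self]; exact isOpen_empty
  let S : ℕ → Set X := fun n => Nat.rec Kᶜ (fun k W => Wf k W) n
  have hS0 : S 0 = Kᶜ := rfl
  have hSs : ∀ k, S (k + 1) = Wf k (S k) := fun k => rfl
  have hSmem : ∀ k, S k ∈ clopenNhds K y := by
    intro k
    induction k with
    | zero => rw [hS0]; exact huniv
    | succ k ih => rw [hSs]; exact (hstep k (S k) ih).1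
  have hSanti : Antitone S := by
    apply antitone_nat_of_succ_le
    intro k
    rw [hSs]
    exact (hstep k (S k) (hSmem k)).2.2.2.2
  refine no_accumulation cip hK hKc hKne hy (fun k => S k \ S (k + 1)) (fun k => zf k (S k))
    ?_ ?_ ?_ ?_ ?_ ?_
  · intro i j hij
    rcases lt_or_gt_of_ne hij with h | h
    · rw [Set.disjoint_left]
      rintro x ⟨_, h2⟩ ⟨h3, _⟩
      exact h2 (hSanti (Nat.succ_le_of_lt h) h3)
    · rw [Set.disjoint_left]
      rintro x ⟨h1, _⟩ ⟨_, h4⟩
      exact h4 (hSanti (Nat.succ_le_of_lt h) h1)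
  · intro i
    refine preconnected_union_of_open hK hKc hKne ?_ ?_ ?_
    · have : S i \ S (i + 1) = S i ∩ (Kᶜ \ S (i + 1)) := by
        ext x
        simp only [Set.mem_sdiff, mem_inter_iff]
        exact ⟨fun h => ⟨h.1, (hSmem i).2.2.1 h.1, h.2⟩, fun h => ⟨h.1, h.2.2⟩⟩
      rw [this]
      exact (hSmem i).1.inter (hSmem (i + 1)).2.1
    · exact fun x hx => (hSmem i).2.2.1 hx.1
    · have : Kᶜ \ (S i \ S (i + 1)) = (Kᶜ \ S i) ∪ S (i + 1) := by
        ext x
        simp only [Set.mem_sdiff, mem_union]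
        constructor
        · rintro ⟨h1, h2⟩
          rcases Classical.em (x ∈ S i) with h3 | h3
          · right
            by_contra h4
            exact h2 ⟨h3, h4⟩
          · exact Or.inl ⟨h1, h3⟩
        · rintro (⟨h1, h2⟩ | h)
          · exact ⟨h1, fun h3 => h2 h3.1⟩
          · exact ⟨(hSmem (i + 1)).2.2.1 h, fun h3 => h3.2 h⟩
      rw [this]
      exact (hSmem i).2.1.union (hSmem (i + 1)).1
  · exact fun i h => h.2 (hSmem (i + 1)).2.2.2
  · intro i
    have := hstep i (S i) (hSmem i)
    exact ⟨this.2.1, by rw [hSs]; exact this.2.2.2.1⟩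
  · rw [tendsto_def]
    intro s hs
    obtain ⟨n, -, hn⟩ := hu.toHasBasis.mem_iff.1 hs
    filter_upwards [eventually_ge_atTop n] with k hk
    exact hn (hu.antitone hk (hstep k (S k) (hSmem k)).2.2.1)
  · intro i
    rw [Set.disjoint_left]
    intro x hx hxK
    exact (hSmem i).2.2.1 hx.1 hxK

/-- **Openness of components.**  In a space with the connected intersection property, each point outside of
a nonempty closed connected set `K` lies in a connected open set that is also closed in the complement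
of `K`. -/
theorem exists_component (cip : CIP X) {K : Set X} (hK : IsPreconnected K) (hKc : IsClosed K)
    (hKne : K.Nonempty) {y : X} (hy : y ∉ K) :
    ∃ L : Set X, IsOpen L ∧ IsPreconnected L ∧ y ∈ L ∧ L ⊆ Kᶜ ∧ IsOpen (Kᶜ \ L) := by
  set Q : X → Set X := fun z => ⋂₀ (clopenNhds K z) with hQdef
  have hQself : ∀ z, z ∈ Q z := fun z => mem_sInter.2 fun W hW => hW.2.2.2
  have hQsub : ∀ z, z ∉ K → Q z ⊆ Kᶜ := fun z hz =>
    sInter_subset_of_mem ⟨hKc.isOpen_compl, by rw [Set.sdiff_self]; exact isOpen_empty, subset_rfl, hz⟩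
  have hsymm : ∀ z w, z ∉ K → w ∈ Q z → Q z = Q w := by
    intro z w hzK hw
    have hiff : clopenNhds K z = clopenNhds K w := by
      ext W
      constructor
      · intro hW
        exact ⟨hW.1, hW.2.1, hW.2.2.1, mem_sInter.1 hw W hW⟩
      · intro hW
        refine ⟨hW.1, hW.2.1, hW.2.2.1, ?_⟩
        by_contra hz
        have hcompl : Kᶜ \ W ∈ clopenNhds K z := by
          refine ⟨hW.2.1, ?_, sdiff_subset, hzK, hz⟩
          have : Kᶜ \ (Kᶜ \ W) = W := by
            rw [sdiff_sdiff_cancel_left hW.2.2.1]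
          rw [this]; exact hW.1
        exact (mem_sInter.1 hw _ hcompl).2 hW.2.2.2
    simp only [hQdef, hiff]
  have hQopen : ∀ z, z ∉ K → IsOpen (Q z) := by
    intro z hz
    rw [isOpen_iff_mem_nhds]
    intro w hw
    rw [hsymm z w hz hw]
    exact quasi_mem_nhds cip hK hKc hKne (hQsub z hz hw)
  have hQcompl : ∀ z, z ∉ K → IsOpen (Kᶜ \ Q z) := by
    intro z hz
    rw [isOpen_iff_mem_nhds]
    intro w hw
    refine mem_of_superset ((hQopen w hw.1).mem_nhds (hQself w)) ?_
    intro v hv
    refine ⟨hQsub w hw.1 hv, fun hv' => ?_⟩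
    apply hw.2
    rw [hsymm z v hz hv', ← hsymm w v hw.1 hv]
    exact hQself w
  refine ⟨Q y, hQopen y hy, ?_, hQself y, hQsub y hy, hQcompl y hy⟩
  rw [isPreconnected_iff_subset_of_disjoint]
  have key : ∀ u v : Set X, IsOpen u → IsOpen v → Q y ⊆ u ∪ v → Q y ∩ (u ∩ v) = ∅ → y ∈ u →
      Q y ⊆ u := by
    intro u v hu hv hcov hdis hyu
    have hmem : Q y ∩ u ∈ clopenNhds K y := by
      refine ⟨(hQopen y hy).inter hu, ?_, fun x hx => hQsub y hy hx.1, hQself y, hyu⟩
      have : Kᶜ \ (Q y ∩ u) = (Kᶜ \ Q y) ∪ (Q y ∩ v) := by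
        ext x
        simp only [Set.mem_sdiff, mem_inter_iff, mem_union]
        constructor
        · rintro ⟨h1, h2⟩
          by_cases h3 : x ∈ Q y
          · right
            refine ⟨h3, ?_⟩
            rcases hcov h3 with h | h
            · exact absurd ⟨h3, h⟩ h2
            · exact h
          · exact Or.inl ⟨h1, h3⟩
        · rintro (⟨h1, h2⟩ | ⟨h1, h2⟩)
          · exact ⟨h1, fun h => h2 h.1⟩
          · refine ⟨hQsub y hy h1, fun h => ?_⟩
            have : x ∈ Q y ∩ (u ∩ v) := ⟨h1, h.2, h2⟩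
            rw [hdis] at this
            exact this
      rw [this]
      exact (hQcompl y hy).union ((hQopen y hy).inter hv)
    exact fun x hx => (mem_sInter.1 hx _ hmem).2
  intro u v hu hv hcov hdis
  rcases hcov (hQself y) with h | h
  · exact Or.inl (key u v hu hv hcov hdis h)
  · exact Or.inr (key v u hv hu (by rwa [union_comm]) (by rwa [inter_comm v u]) h)

/-- The component is the usual one. -/
theorem component_eq {K L : Set X} {y : X} (hL : IsOpen L) (hLc : IsPreconnected L) (hyL : y ∈ L)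
    (hLK : L ⊆ Kᶜ) (hL' : IsOpen (Kᶜ \ L)) : connectedComponentIn Kᶜ y = L := by
  apply Subset.antisymm
  · have h := (isPreconnected_iff_subset_of_disjoint.1
      (isPreconnected_connectedComponentIn (F := Kᶜ) (x := y))) L (Kᶜ \ L) hL hL'
      (by
        intro x hx
        by_cases h : x ∈ L
        · exact Or.inl h
        · exact Or.inr ⟨connectedComponentIn_subset _ _ hx, h⟩)
      (by
        apply Set.eq_empty_of_forall_notMem
        rintro x ⟨_, h1, h2⟩
        exact h2.2 h1)
    rcases h with h | h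
    · exact h
    · exact absurd (h (mem_connectedComponentIn (hLK hyL))).2 (by simpa using hyL)
  · exact hLc.subset_connectedComponentIn hyL hLK

/-- The complement of a component is connected. -/
theorem compl_component_preconnected {K L : Set X} (hK : IsPreconnected K) (hKc : IsClosed K)
    (hKne : K.Nonempty) (hL : IsOpen L) (hLK : L ⊆ Kᶜ) (hL' : IsOpen (Kᶜ \ L)) :
    IsPreconnected Lᶜ := by
  have h := preconnected_union_of_open hK hKc hKne hL' sdiff_subset
    (by rw [sdiff_sdiff_cancel_left hLK]; exact hL)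
  have heq : K ∪ (Kᶜ \ L) = Lᶜ := by
    ext x
    simp only [mem_union, Set.mem_sdiff, mem_compl_iff]
    constructor
    · rintro (h1 | h1) h2
      · exact hLK h2 h1
      · exact h1.2 h2
    · intro h1
      by_cases h2 : x ∈ K
      · exact Or.inl h2
      · exact Or.inr ⟨h2, h1⟩
  rwa [heq] at h

/-- **One boundary point.** -/
theorem exists_root (cip : CIP X) {K L : Set X} (hK : IsPreconnected K)
    (hKne : K.Nonempty) (hL : IsOpen L) (hLc : IsPreconnected L) (hLne : L.Nonempty)
    (hLK : L ⊆ Kᶜ) (hL' : IsOpen (Kᶜ \ L)) :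
    ∃ p ∈ K, closure L = insert p L ∧ p ∉ L := by
  have hsub : closure L \ L ⊆ K := by
    rintro x ⟨hx, hxL⟩
    by_contra hxK
    obtain ⟨z, hz, hz'⟩ := mem_closure_iff.1 hx (Kᶜ \ L) hL' ⟨hxK, hxL⟩
    exact hz.2 hz'
  have hne : (closure L \ L).Nonempty := by
    by_contra h
    rw [not_nonempty_iff_eq_empty, sdiff_eq_empty] at h
    have hcl : IsClosed L := by
      rw [← closure_subset_iff_isClosed]; exact h
    rcases isClopen_iff.1 ⟨hcl, hL⟩ with h1 | h1
    · rw [h1] at hLne; exact not_nonempty_empty hLne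
    · obtain ⟨k, hk⟩ := hKne
      exact hLK (h1 ▸ mem_univ k) hk
  obtain ⟨p, hp⟩ := hne
  refine ⟨p, hsub hp, ?_, hp.2⟩
  have huniq : ∀ q ∈ closure L \ L, q = p := by
    intro q hq
    by_contra hqp
    have h1 : IsPreconnected (L ∪ {p, q}) := by
      refine hLc.subset_closure subset_union_left ?_
      apply union_subset subset_closure
      rintro x (rfl | rfl)
      · exact hp.1
      · exact hq.1
    have h2 := cip _ _ h1 hK
    have h3 : (L ∪ {p, q}) ∩ K = {p, q} := by
      ext x
      constructor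
      · rintro ⟨h | h, hx⟩
        · exact absurd hx (hLK h)
        · exact h
      · rintro (rfl | rfl)
        · exact ⟨Or.inr (Or.inl rfl), hsub hp⟩
        · exact ⟨Or.inr (Or.inr rfl), hsub hq⟩
    rw [h3, isPreconnected_closed_iff] at h2
    obtain ⟨w, -, hw1, hw2⟩ := h2 {p} {q} isClosed_singleton isClosed_singleton
      (by
        intro x hx
        exact hx)
      ⟨p, Or.inl rfl, rfl⟩ ⟨q, Or.inr rfl, rfl⟩
    rw [mem_singleton_iff] at hw1 hw2
    exact hqp (hw2.symm.trans hw1)
  apply Subset.antisymm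
  · intro x hx
    by_cases hxL : x ∈ L
    · exact Or.inr hxL
    · exact Or.inl (huniq x ⟨hx, hxL⟩)
  · rw [insert_subset_iff]
    exact ⟨hp.1, subset_closure⟩

/-- The root of a component is a cut point unless `K` is the single point. -/
theorem root_cut {K L : Set X} {p k : X} (hL : IsOpen L) (hLne : L.Nonempty)
    (hLK : L ⊆ Kᶜ) (hcl : closure L = insert p L) (hpL : p ∉ L)
    (hk : k ∈ K) (hkp : k ≠ p) : ¬ IsPreconnected ({p}ᶜ : Set X) := by
  intro h
  have h1 := isPreconnected_iff_subset_of_disjoint.1 h L (closure L)ᶜ hL isClosed_closure.isOpen_compl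
    (by
      intro x hx
      by_cases hxL : x ∈ L
      · exact Or.inl hxL
      · right
        rw [hcl]
        rintro (rfl | h')
        · exact hx rfl
        · exact hxL h')
    (by
      apply Set.eq_empty_of_forall_notMem
      rintro x ⟨_, h2, h3⟩
      exact h3 (subset_closure h2))
  rcases h1 with h1 | h1
  · exact hLK (h1 (show k ∈ ({p}ᶜ : Set X) from hkp)) hk
  · obtain ⟨y, hy⟩ := hLne
    exact h1 (show y ∈ ({p}ᶜ : Set X) from fun h => hpL (h ▸ hy)) (subset_closure hy)

/-- **Main lemma.**  Let `U` be an open set whose boundary consists of non-cut points, `x ∈ U` and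
`y ∉ closure U`.  Then there are a point `p ∈ U`, which is `x` or a cut point, and an open connected set `L`
containing `y` with the only boundary point `p` such that no nondegenerate connected subset of
`U ∩ closure L` contains `p`. -/
theorem main_lemma (cip : CIP X) {U : Set X} (hU : IsOpen U) {x y : X} (hx : x ∈ U)
    (hy : y ∉ closure U) (hS : ∀ s ∈ frontier U, IsPreconnected ({s}ᶜ : Set X)) :
    ∃ p ∈ U, ∃ L : Set X, IsOpen L ∧ IsPreconnected L ∧ closure L = insert p L ∧ p ∉ L ∧ y ∈ L ∧
      (p = x ∨ ¬ IsPreconnected ({p}ᶜ : Set X)) ∧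
      ∀ A : Set X, IsPreconnected A → p ∈ A → A ⊆ U → A ⊆ closure L → A ⊆ {p} := by
  set U₀ := connectedComponentIn U x with hU₀
  have hU₀c : IsPreconnected U₀ := isPreconnected_connectedComponentIn
  have hxU₀ : x ∈ U₀ := mem_connectedComponentIn hx
  have hU₀U : U₀ ⊆ U := connectedComponentIn_subset _ _
  have hKc : IsPreconnected (closure U₀) := hU₀c.closure
  have hKne : (closure U₀).Nonempty := ⟨x, subset_closure hxU₀⟩
  have hyK : y ∉ closure U₀ := fun h => hy (closure_mono hU₀U h)
  obtain ⟨L, hL, hLc, hyL, hLK, hL'⟩ := exists_component cip hKc isClosed_closure hKne hyK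
  obtain ⟨p, hpK, hcl, hpL⟩ := exists_root cip hKc hKne hL hLc ⟨y, hyL⟩ hLK hL'
  have hor : p = x ∨ ¬ IsPreconnected ({p}ᶜ : Set X) := by
    by_cases hpx : p = x
    · exact Or.inl hpx
    · right
      exact root_cut hL ⟨y, hyL⟩ hLK hcl hpL (subset_closure hxU₀) (fun h => hpx h.symm)
  have hpU : p ∈ U := by
    rcases hor with h | h
    · rw [h]; exact hx
    · by_contra hpU
      exact h (hS p ⟨closure_mono hU₀U hpK, by rwa [hU.interior_eq]⟩)
  have hpU₀ : p ∈ U₀ := by
    have h1 : IsPreconnected (insert p U₀) :=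
      hU₀c.subset_closure (subset_insert _ _) (insert_subset hpK subset_closure)
    exact h1.subset_connectedComponentIn (mem_insert_of_mem _ hxU₀) (insert_subset hpU hU₀U)
      (mem_insert _ _)
  refine ⟨p, hpU, L, hL, hLc, hcl, hpL, hyL, hor, ?_⟩
  intro A hA hpA hAU hAL a ha
  have h1 : IsPreconnected (U₀ ∪ A) := hU₀c.union p hpU₀ hpA hA
  have h2 : U₀ ∪ A ⊆ U₀ :=
    h1.subset_connectedComponentIn (Or.inl hxU₀) (union_subset hU₀U hAU)
  have h3 : a ∈ closure U₀ := subset_closure (h2 (Or.inr ha))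
  have h4 := hAL ha
  rw [hcl] at h4
  rcases h4 with h4 | h4
  · exact h4
  · exact absurd h3 (hLK h4)

end metric

end Pool.Agent.H.MP_0e7155_gt
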