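import Pool.Agent.H.MP_0e7155_gt.Sep

set_option autoImplicit false

/-!
# A Bernstein type argument: small separators
-/

open Set Filter Topology Cardinal

universe u

namespace Pool.Agent.H.MP_0e7155_gt

set_option linter.unusedSectionVars false
set_option linter.unusedVariables false

theorem exists_injective_choice {ι X : Type u} (S : ι → Set X) (h : ∀ i, #ι ≤ #(S i)) :
    ∃ f : ι → X, Function.Injective f ∧ ∀ i, f i ∈ S i := by
  obtain ⟨r, wo, hr⟩ := Cardinal.exists_ord_eq ι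
  have hlt : ∀ i, #{j // r j i} < #ι := by
    intro i
    rw [← Ordinal.card_typein (r := r) i, ← Cardinal.lt_ord, hr]
    exact Ordinal.typein_lt_type r i
  have step : ∀ (i : ι) (g : ∀ j, r j i → X), ∃ x ∈ S i, ∀ j hj, g j hj ≠ x := by
    intro i g
    by_contra hcon
    push Not at hcon
    have h1 : S i ⊆ range (fun j : {j // r j i} => g j.1 j.2) := by
      intro x hx
      obtain ⟨j, hj, hjx⟩ := hcon x hx
      exact ⟨⟨j, hj⟩, hjx⟩
    have h2 := (h i).trans ((mk_le_mk_of_subset h1).trans mk_range_le)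
    exact absurd (hlt i) (not_lt.2 h2)
  choose F hF1 hF2 using step
  let f : ι → X := wo.wf.fix F
  have hf : ∀ i, f i = F i (fun j _ => f j) := fun i => wo.wf.fix_eq F i
  have hne : ∀ i j, r j i → f j ≠ f i := by
    intro i j hj
    have h1 := hF2 i (fun j _ => f j) j hj
    rw [← hf i] at h1
    exact h1
  refine ⟨f, ?_, ?_⟩
  · intro i j hij
    rcases trichotomous_of r i j with h1 | h1 | h1
    · exact absurd hij (hne j i h1)
    · exact h1
    · exact absurd hij.symm (hne i j h1)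
  · intro i
    rw [hf i]
    exact hF1 i _

/-- Bernstein's construction. -/
theorem exists_bernstein {X : Type u} (𝓢 : Set (Set X)) (h𝓢 : #𝓢 ≤ 𝔠) (h : ∀ S ∈ 𝓢, 𝔠 ≤ #S) :
    ∃ D : Set X, ∀ S ∈ 𝓢, (S ∩ D).Nonempty ∧ (S \ D).Nonempty := by
  have hcard : #(𝓢 × ULift.{u} Bool) ≤ 𝔠 := by
    rw [mk_prod, lift_id, lift_id]
    refine (mul_le_mul' h𝓢 ?_).trans (mul_eq_self aleph0_le_continuum).le
    exact (mk_le_aleph0 (α := ULift.{u} Bool)).trans aleph0_le_continuum
  obtain ⟨f, hf, hfS⟩ := exists_injective_choice (fun i : 𝓢 × ULift.{u} Bool => (i.1 : Set X))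
    (fun i => hcard.trans (h i.1 i.1.2))
  refine ⟨range (fun S : 𝓢 => f (S, ⟨true⟩)), fun S hS => ⟨⟨f (⟨S, hS⟩, ⟨true⟩), hfS (⟨S, hS⟩, ⟨true⟩), ⟨⟨S, hS⟩, rfl⟩⟩,
    ⟨f (⟨S, hS⟩, ⟨false⟩), hfS (⟨S, hS⟩, ⟨false⟩), ?_⟩⟩⟩
  rintro ⟨T, hT⟩
  have := hf hT
  simp at this

/-- A second countable space has at most continuum many open sets. -/
theorem mk_isOpen_le {X : Type u} [TopologicalSpace X] [SecondCountableTopology X] :
    #{U : Set X | IsOpen U} ≤ 𝔠 := by
  obtain ⟨b, hb, -, hbasis⟩ := TopologicalSpace.exists_countable_basis X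
  have h1 : Function.Injective (fun U : {U : Set X | IsOpen U} => {B : b | (B : Set X) ⊆ U}) := by
    rintro ⟨U, hU⟩ ⟨V, hV⟩ hUV
    have key : ∀ {U V : Set X}, IsOpen U → ({B : b | (B : Set X) ⊆ U} ⊆ {B : b | (B : Set X) ⊆ V}) →
        U ⊆ V := by
      intro U V hU hUV x hx
      obtain ⟨B, hB, hxB, hBU⟩ := hbasis.exists_subset_of_mem_open hx hU
      exact (hUV (show (⟨B, hB⟩ : b) ∈ {B : b | (B : Set X) ⊆ U} from hBU) : B ⊆ V) hxB
    simp only at hUV
    exact Subtype.ext (Subset.antisymm (key hU hUV.le) (key hV hUV.ge))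
  have h2 := mk_le_of_injective h1
  refine h2.trans ?_
  rw [mk_set]
  rw [← two_power_aleph0]
  exact power_le_power_left two_ne_zero (by rw [le_aleph0_iff_set_countable]; exact hb)

variable {X : Type u} [MetricSpace X] [PreconnectedSpace X]

/-- **Small separators.** -/
theorem Sep.exists_small (cip : CIP X) [SecondCountableTopology X] {C : Set X} (hC : Sep C) :
    ∃ U : Set X, IsOpen U ∧ U.Nonempty ∧ (closure U)ᶜ.Nonempty ∧ frontier U ⊆ C ∧
      #(frontier U) < 𝔠 := by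
  by_contra hcon
  push Not at hcon
  set 𝓢 : Set (Set X) := frontier '' {U : Set X | IsOpen U ∧ U.Nonempty ∧ (closure U)ᶜ.Nonempty ∧
    frontier U ⊆ C} with h𝓢def
  have h𝓢 : #𝓢 ≤ 𝔠 := by
    refine mk_image_le.trans ((mk_le_mk_of_subset ?_).trans mk_isOpen_le)
    exact fun U hU => hU.1
  obtain ⟨D, hD⟩ := exists_bernstein 𝓢 h𝓢 (by
    rintro _ ⟨U, ⟨h1, h2, h3, h4⟩, rfl⟩
    exact hcon U h1 h2 h3 h4)
  have h1 : ¬ Sep (C ∩ D) := by
    rintro ⟨U, hU1, hU2, hU3, hU4⟩
    obtain ⟨x, hx, hxD⟩ := (hD (frontier U) ⟨U, ⟨hU1, hU2, hU3, hU4.trans inter_subset_left⟩, rfl⟩).2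
    exact hxD (hU4 hx).2
  have h2 : ¬ Sep (C \ D) := by
    rintro ⟨U, hU1, hU2, hU3, hU4⟩
    obtain ⟨x, hx, hxD⟩ := (hD (frontier U) ⟨U, ⟨hU1, hU2, hU3, hU4.trans sdiff_subset⟩, rfl⟩).1
    exact (hU4 hx).2 hxD
  have h3 := not_sep_union cip h1 h2
  rw [inter_union_sdiff] at h3
  exact h3 hC

/-- Locally non-separating compact sets are non-separating. -/
theorem not_sep_of_locally (cip : CIP X) {S : Set X} (hS : IsCompact S)
    (h : ∀ z ∈ S, ∃ O ∈ 𝓝 z, ¬ Sep (S ∩ O)) : ¬ Sep S := by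
  have h1 : ¬ Sep (S ∩ S) := by
    refine hS.induction_on (p := fun T => ¬ Sep (S ∩ T)) ?_ ?_ ?_ ?_
    · rw [inter_empty]; exact not_sep_empty
    · intro s t hst ht hs
      exact ht (hs.mono (inter_subset_inter_right _ hst))
    · intro s t hs ht
      rw [inter_union_distrib_left]
      exact not_sep_union cip hs ht
    · intro z hz
      obtain ⟨O, hO, hO'⟩ := h z hz
      exact ⟨O, mem_nhdsWithin_of_mem_nhds hO, hO'⟩
  rwa [inter_self] at h1

/-- A compact closed separator that consists of non-cut points has at least continuum many points. -/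
theorem continuum_le_of_compact (cip : CIP X) {S : Set X} (hS : IsCompact S)
    (hcut : ∀ p ∈ S, IsPreconnected ({p}ᶜ : Set X)) (hsep : Sep S) : 𝔠 ≤ #S := by
  set P : Set X := {z ∈ S | ∀ O ∈ 𝓝 z, Sep (S ∩ O)} with hPdef
  have hPS : P ⊆ S := fun z hz => hz.1
  have hPc : IsClosed P := by
    rw [← isOpen_compl_iff, isOpen_iff_mem_nhds]
    intro z hz
    by_cases hzS : z ∈ S
    · have : ∃ O ∈ 𝓝 z, ¬ Sep (S ∩ O) := by
        by_contra hcon
        push Not at hcon
        exact hz ⟨hzS, hcon⟩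
      obtain ⟨O, hO, hO'⟩ := this
      obtain ⟨O', hO'O, hO'o, hzO'⟩ := mem_nhds_iff.1 hO
      refine mem_of_superset (hO'o.mem_nhds hzO') ?_
      intro w hw hwP
      exact hO' ((hwP.2 O' (hO'o.mem_nhds hw)).mono (inter_subset_inter_right _ hO'O))
    · exact mem_of_superset (hS.isClosed.isOpen_compl.mem_nhds hzS) (fun w hw hwP => hw hwP.1)
  have hPne : P.Nonempty := by
    by_contra hemp
    rw [not_nonempty_iff_eq_empty] at hemp
    refine not_sep_of_locally cip hS ?_ hsep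
    intro z hz
    by_contra hcon
    push Not at hcon
    have : z ∈ P := ⟨hz, hcon⟩
    rw [hemp] at this
    exact this
  -- no isolated points
  have hPacc : ∀ z ∈ P, ∀ ε > 0, ∃ w ∈ P, w ≠ z ∧ dist w z < ε := by
    intro z hz ε hε
    by_contra hcon
    push Not at hcon
    have h1 : Sep (S ∩ Metric.ball z ε) := hz.2 _ (Metric.ball_mem_nhds z hε)
    obtain ⟨U, hU1, hU2, hU3, hU4⟩ := h1
    have h2 : Sep (frontier U) := ⟨U, hU1, hU2, hU3, subset_rfl⟩
    have h3 : Sep (frontier U \ {z}) := by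
      by_contra h3
      have h4 := not_sep_union cip h3 (not_sep_singleton (hcut z hz.1))
      exact h4 (h2.mono (fun x hx => by
        by_cases hxz : x = z
        · exact Or.inr hxz
        · exact Or.inl ⟨hx, hxz⟩))
    obtain ⟨V, hV1, hV2, hV3, hV4⟩ := h3
    have hVS : frontier V ⊆ S := hV4.trans (sdiff_subset.trans (hU4.trans inter_subset_left))
    refine not_sep_of_locally cip (S := frontier V) (hS.of_isClosed_subset isClosed_frontier hVS) ?_
      ⟨V, hV1, hV2, hV3, subset_rfl⟩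
    intro w hw
    have hwz : w ≠ z := (hV4 hw).2
    have hwb : dist w z < ε := (hU4 (hV4 hw).1).2
    have hwP : w ∉ P := fun h => absurd hwb (not_lt.2 (hcon w h hwz))
    have : ∃ O ∈ 𝓝 w, ¬ Sep (S ∩ O) := by
      by_contra hcon
      push Not at hcon
      exact hwP ⟨hVS hw, hcon⟩
    obtain ⟨O, hO, hO'⟩ := this
    exact ⟨O, hO, fun h => hO' (h.mono (inter_subset_inter_left _ hVS))⟩
  -- the perfect set in the compact space `S`
  have : CompactSpace S := isCompact_iff_compactSpace.1 hS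
  have hperf : Perfect (Subtype.val ⁻¹' P : Set S) := by
    refine ⟨hPc.preimage continuous_subtype_val, ?_⟩
    intro z hz
    rw [accPt_iff_nhds]
    intro O hO
    obtain ⟨ε, hε, hεO⟩ := Metric.mem_nhds_iff.1 hO
    obtain ⟨w, hw, hwz, hwd⟩ := hPacc z hz ε hε
    exact ⟨⟨w, hPS hw⟩, ⟨hεO hwd, hw⟩, fun h => hwz (congrArg Subtype.val h)⟩
  obtain ⟨z, hz⟩ := hPne
  obtain ⟨f, -, -, hf⟩ := hperf.exists_nat_bool_injection ⟨⟨z, hPS hz⟩, hz⟩
  have h1 := lift_mk_le_lift_mk_of_injective hf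
  have h2 : lift.{u} #(ℕ → Bool) = 𝔠 := by
    rw [mk_pi]
    simp
  rw [h2, lift_uzero] at h1
  exact h1

/-- No relatively compact set of non-cut points has a disconnected complement. -/
theorem not_sep_of_compact_closure (cip : CIP X) [SecondCountableTopology X] {C : Set X}
    (hC : ∀ p ∈ C, IsPreconnected ({p}ᶜ : Set X)) (hcl : IsCompact (closure C)) : ¬ Sep C := by
  intro hsep
  obtain ⟨U, hU1, hU2, hU3, hU4, hU5⟩ := hsep.exists_small cip
  exact absurd hU5 (not_lt.2 (continuum_le_of_compact cip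
    (hcl.of_isClosed_subset isClosed_frontier (hU4.trans subset_closure))
    (fun p hp => hC p (hU4 hp)) ⟨U, hU1, hU2, hU3, subset_rfl⟩))

end Pool.Agent.H.MP_0e7155_gt
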