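import Pool.Agent.H.MP_0e7155_gt.Basic

set_option autoImplicit false

/-!
# Points of local compactness
-/

open Set Filter Topology

namespace Pool.Agent.H.MP_0e7155_gt

set_option linter.unusedSectionVars false
set_option linter.unusedVariables false

variable {X : Type*}

/-- In a compact Hausdorff space, a component contained in an open set is contained in a clopen subset of
that open set. -/
theorem exists_clopen_of_component_subset {T : Type*} [TopologicalSpace T] [T2Space T] [CompactSpace T]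
    {x : T} {U : Set T} (hU : IsOpen U) (h : connectedComponent x ⊆ U) :
    ∃ V : Set T, IsClopen V ∧ x ∈ V ∧ V ⊆ U := by
  rw [connectedComponent_eq_iInter_isClopen] at h
  let N := { s : Set T // IsClopen s ∧ x ∈ s }
  have : Nonempty N := ⟨⟨univ, isClopen_univ, mem_univ x⟩⟩
  have hNcl : ∀ s : N, IsClosed s.val := fun s => s.property.1.1
  have hdir : Directed GE.ge fun s : N => s.val := by
    rintro ⟨s, hs, hxs⟩ ⟨t, ht, hxt⟩
    exact ⟨⟨s ∩ t, hs.inter ht, ⟨hxs, hxt⟩⟩, inter_subset_left, inter_subset_right⟩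
  have h_nhds : ∀ y ∈ ⋂ s : N, s.val, U ∈ 𝓝 y := fun y y_in => hU.mem_nhds (h y_in)
  obtain ⟨⟨s, hs, hxs⟩, hsU⟩ := exists_subset_nhds_of_compactSpace hdir hNcl h_nhds
  exact ⟨s, hs, hxs, hsU⟩

/-- **Boundary bumping.** -/
theorem boundary_bumping [TopologicalSpace X] [T2Space X] {Y T G : Set X} (hY : IsPreconnected Y)
    (hT : IsCompact T) (hTY : T ⊆ Y) (hG : IsOpen G) (hYG : Y ∩ G ⊆ T) {y : X} (hy : y ∈ T)
    (hYG' : ¬ Y ⊆ G) : ∃ a ∈ connectedComponentIn T y, a ∉ G := by
  by_contra hcon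
  push Not at hcon
  have : CompactSpace T := isCompact_iff_compactSpace.1 hT
  have hcomp : connectedComponent (⟨y, hy⟩ : T) ⊆ (Subtype.val ⁻¹' G : Set T) := by
    intro t ht
    apply hcon
    rw [connectedComponentIn_eq_image hy]
    exact ⟨t, ht, rfl⟩
  obtain ⟨V, hV, hyV, hVG⟩ :=
    exists_clopen_of_component_subset (hG.preimage continuous_subtype_val) hcomp
  -- the image of `V` is closed, and relatively open in `Y`
  have hVclosed : IsClosed (Subtype.val '' V : Set X) :=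
    (hV.1.isCompact.image continuous_subtype_val).isClosed
  obtain ⟨H, hH, hHV⟩ := isOpen_induced_iff.1 hV.2
  have hrel : Y ∩ (H ∩ G) = Subtype.val '' V := by
    ext x
    constructor
    · rintro ⟨hxY, hxH, hxG⟩
      have hxT : x ∈ T := hYG ⟨hxY, hxG⟩
      refine ⟨⟨x, hxT⟩, ?_, rfl⟩
      rw [← hHV]; exact hxH
    · rintro ⟨⟨t, ht⟩, htV, rfl⟩
      refine ⟨hTY ht, ?_, hVG htV⟩
      rw [← hHV] at htV; exact htV
  have h1 := isPreconnected_iff_subset_of_disjoint.1 hY (H ∩ G) (Subtype.val '' V)ᶜ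
    (hH.inter hG) hVclosed.isOpen_compl
    (by
      intro x hx
      by_cases h : x ∈ (Subtype.val '' V : Set X)
      · left
        rw [← hrel] at h
        exact h.2
      · exact Or.inr h)
    (by
      apply Set.eq_empty_of_forall_notMem
      rintro x ⟨hxY, hx1, hx2⟩
      exact hx2 (hrel ▸ ⟨hxY, hx1⟩))
  rcases h1 with h1 | h1
  · exact hYG' (h1.trans inter_subset_right)
  · exact h1 (hTY hy) ⟨⟨y, hy⟩, hyV, rfl⟩

/-- The limit of connected sets along an ultrafilter. -/
theorem ultralimit_preconnected [TopologicalSpace X] [T2Space X] [RegularSpace X] {N : Set X}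
    (hN : IsCompact N) (F : Ultrafilter ℕ) (K : ℕ → Set X) (hK : ∀ k, IsPreconnected (K k))
    (hKN : ∀ k, K k ⊆ N) :
    IsPreconnected {z : X | ∀ O ∈ 𝓝 z, ∀ᶠ k in (F : Filter ℕ), (O ∩ K k).Nonempty} := by
  set K₀ := {z : X | ∀ O ∈ 𝓝 z, ∀ᶠ k in (F : Filter ℕ), (O ∩ K k).Nonempty} with hK₀
  have hK₀N : K₀ ⊆ N := by
    intro z hz
    by_contra hzN
    obtain ⟨k, hk⟩ := (hz Nᶜ (hN.isClosed.isOpen_compl.mem_nhds hzN)).exists
    obtain ⟨w, hw, hw'⟩ := hk
    exact hw (hKN k hw')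
  have hK₀c : IsClosed K₀ := by
    rw [← isOpen_compl_iff, isOpen_iff_mem_nhds]
    intro z hz
    simp only [hK₀, mem_compl_iff, mem_ofPred_eq, not_forall] at hz
    obtain ⟨O, hO, hO'⟩ := hz
    obtain ⟨O', hO'O, hO'o, hzO'⟩ := mem_nhds_iff.1 hO
    refine mem_of_superset (hO'o.mem_nhds hzO') ?_
    intro w hw hwK
    exact hO' ((hwK O' (hO'o.mem_nhds hw)).mono fun k hk => hk.mono (inter_subset_inter_left _ hO'O))
  rw [isPreconnected_closed_iff]
  intro t t' ht ht' hcov h1 h2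
  by_contra hcon
  rw [not_nonempty_iff_eq_empty] at hcon
  have hc1 : IsCompact (K₀ ∩ t) := hN.of_isClosed_subset (hK₀c.inter ht) (inter_subset_left.trans hK₀N)
  have hc2 : IsCompact (K₀ ∩ t') := hN.of_isClosed_subset (hK₀c.inter ht') (inter_subset_left.trans hK₀N)
  have hdis : Disjoint (K₀ ∩ t) (K₀ ∩ t') := by
    rw [Set.disjoint_left]
    rintro x ⟨hx, hxt⟩ ⟨_, hxt'⟩
    have : x ∈ K₀ ∩ (t ∩ t') := ⟨hx, hxt, hxt'⟩
    rw [hcon] at this
    exact this
  obtain ⟨u, v, hu, hv, hu', hv', huv⟩ := SeparatedNhds.of_isCompact_isCompact hc1 hc2 hdis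
  obtain ⟨a, ha⟩ := h1
  obtain ⟨b, hb⟩ := h2
  have hA : ∀ᶠ k in (F : Filter ℕ), (u ∩ K k).Nonempty := ha.1 u (hu.mem_nhds (hu' ha))
  have hB : ∀ᶠ k in (F : Filter ℕ), (v ∩ K k).Nonempty := hb.1 v (hv.mem_nhds (hv' hb))
  -- points of `K k` outside of `u ∪ v`
  have hC : ∀ᶠ k in (F : Filter ℕ), ∃ z ∈ K k, z ∉ u ∪ v := by
    filter_upwards [hA, hB] with k hkA hkB
    by_contra h
    push Not at h
    have h3 := (hK k) u v hu hv h (by rwa [inter_comm]) (by rwa [inter_comm])
    obtain ⟨w, _, hw1, hw2⟩ := h3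
    exact Set.disjoint_left.1 huv hw1 hw2
  have hC' : ∀ k, ∃ z : X, (∃ w ∈ K k, w ∉ u ∪ v) → (z ∈ K k ∧ z ∉ u ∪ v) := by
    intro k
    by_cases h : ∃ w ∈ K k, w ∉ u ∪ v
    · obtain ⟨w, hw⟩ := h
      exact ⟨w, fun _ => hw⟩
    · exact ⟨a, fun h' => absurd h' h⟩
  choose z hz using hC'
  have hz' : ∀ᶠ k in (F : Filter ℕ), z k ∈ K k ∧ z k ∉ u ∪ v := hC.mono fun k hk => hz k hk
  have hcomp : IsCompact (N \ (u ∪ v)) := hN.diff (hu.union hv)
  have hle : ((F.map z : Ultrafilter X) : Filter X) ≤ 𝓟 (N \ (u ∪ v)) := by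
    rw [le_principal_iff]
    exact hz'.mono fun k hk => ⟨hKN k hk.1, hk.2⟩
  obtain ⟨w, hw, hwlim⟩ := hcomp.ultrafilter_le_nhds (F.map z) hle
  have hwK₀ : w ∈ K₀ := by
    intro O hO
    have : ∀ᶠ k in (F : Filter ℕ), z k ∈ O := hwlim hO
    exact (this.and hz').mono fun k hk => ⟨z k, hk.1, hk.2.1⟩
  rcases hcov hwK₀ with h | h
  · exact hw.2 (Or.inl (hu' ⟨hwK₀, h⟩))
  · exact hw.2 (Or.inr (hv' ⟨hwK₀, h⟩))

section metric

variable [MetricSpace X] [PreconnectedSpace X]

/-- In a space with the connected intersection property, the component of a point in a compact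
neighbourhood is a neighbourhood of the point. -/
theorem component_mem_nhds (cip : CIP X) {s : X} {N : Set X} (hN : IsCompact N) (hs : N ∈ 𝓝 s) :
    connectedComponentIn N s ∈ 𝓝 s := by
  by_cases huniv : N = univ
  · rw [huniv, connectedComponentIn_univ, PreconnectedSpace.connectedComponent_eq_univ]
    exact univ_mem
  by_contra hcon
  set Ks := connectedComponentIn N s with hKs
  have hsN : s ∈ N := mem_of_mem_nhds hs
  -- a sequence of points of `N` outside of `Ks` tending to `s`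
  have hseq : ∃ y : ℕ → X, (∀ k, y k ∈ N ∧ y k ∉ Ks) ∧ Tendsto y atTop (𝓝 s) := by
    obtain ⟨u, hu⟩ := (𝓝 s).exists_antitone_basis
    have : ∀ k, ∃ y, y ∈ N ∩ u k ∧ y ∉ Ks := by
      intro k
      by_contra h
      push Not at h
      exact hcon (mem_of_superset (inter_mem hs (hu.mem k)) h)
    choose y hy using this
    exact ⟨y, fun k => ⟨(hy k).1.1, (hy k).2⟩, hu.tendsto fun k => (hy k).1.2⟩
  obtain ⟨y, hy, hylim⟩ := hseq
  set K : ℕ → Set X := fun k => connectedComponentIn N (y k) with hKdef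
  have hKN : ∀ k, K k ⊆ N := fun k => connectedComponentIn_subset _ _
  have hKc : ∀ k, IsPreconnected (K k) := fun k => isPreconnected_connectedComponentIn
  have hyK : ∀ k, y k ∈ K k := fun k => mem_connectedComponentIn (hy k).1
  have hdisj : ∀ k, Disjoint (K k) Ks := by
    intro k
    rw [Set.disjoint_left]
    intro w hw1 hw2
    apply (hy k).2
    have e1 := connectedComponentIn_eq hw1
    have e2 := connectedComponentIn_eq hw2
    rw [hKs, e2, ← e1]
    exact hyK k
  -- points of `K k` outside of the interior of `N`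
  have hbb : ∀ k, ∃ a ∈ K k, a ∉ interior N := by
    intro k
    refine boundary_bumping (isPreconnected_univ (α := X)) hN (subset_univ _) isOpen_interior
      (fun x hx => interior_subset hx.2) (hy k).1 ?_
    intro h
    apply huniv
    exact eq_univ_of_univ_subset (h.trans interior_subset)
  choose a haK haN using hbb
  let F : Ultrafilter ℕ := hyperfilter ℕ
  have hFtop : (F : Filter ℕ) ≤ atTop := Nat.hyperfilter_le_atTop
  set K₀ := {z : X | ∀ O ∈ 𝓝 z, ∀ᶠ k in (F : Filter ℕ), (O ∩ K k).Nonempty} with hK₀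
  have hK₀c : IsPreconnected K₀ := ultralimit_preconnected hN F K hKc hKN
  have hsK₀ : s ∈ K₀ := by
    intro O hO
    exact hFtop ((hylim.eventually hO).mono fun k hk => ⟨y k, hk, hyK k⟩)
  have hK₀N : K₀ ⊆ N := by
    intro z hz
    by_contra hzN
    obtain ⟨k, w, hw, hw'⟩ := (hz Nᶜ (hN.isClosed.isOpen_compl.mem_nhds hzN)).exists
    exact hw (hKN k hw')
  have hK₀Ks : K₀ ⊆ Ks := hK₀c.subset_connectedComponentIn hsK₀ hK₀N
  have hK₀cl : IsClosed K₀ := by
    rw [← isOpen_compl_iff, isOpen_iff_mem_nhds]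
    intro z hz
    simp only [hK₀, mem_compl_iff, mem_ofPred_eq, not_forall] at hz
    obtain ⟨O, hO, hO'⟩ := hz
    obtain ⟨O', hO'O, hO'o, hzO'⟩ := mem_nhds_iff.1 hO
    refine mem_of_superset (hO'o.mem_nhds hzO') ?_
    intro w hw hwK
    exact hO' ((hwK O' (hO'o.mem_nhds hw)).mono fun k hk => hk.mono (inter_subset_inter_left _ hO'O))
  -- a point of `K₀` different from `s`
  obtain ⟨b, hbK₀, hbs⟩ : ∃ b ∈ K₀, b ≠ s := by
    have hcomp : IsCompact (N \ interior N) := hN.diff isOpen_interior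
    have hle : ((F.map a : Ultrafilter X) : Filter X) ≤ 𝓟 (N \ interior N) := by
      rw [le_principal_iff]
      exact Filter.mem_map.2 (Eventually.of_forall fun k => ⟨hKN k (haK k), haN k⟩)
    obtain ⟨w, hw, hwlim⟩ := hcomp.ultrafilter_le_nhds (F.map a) hle
    refine ⟨w, ?_, ?_⟩
    · intro O hO
      have : ∀ᶠ k in (F : Filter ℕ), a k ∈ O := hwlim hO
      exact this.mono fun k hk => ⟨a k, hk, haK k⟩
    · rintro rfl
      exact hw.2 (mem_interior_iff_mem_nhds.2 hs)
  -- a nondegenerate closed connected subset `K'` of `K₀` avoiding `s`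
  set ε := dist b s / 2 with hε
  have hbs' : 0 < dist b s := dist_pos.2 hbs
  have hεpos : 0 < ε := by positivity
  set T := K₀ ∩ (Metric.ball s ε)ᶜ with hTdef
  have hT : IsCompact T :=
    hN.of_isClosed_subset (hK₀cl.inter Metric.isOpen_ball.isClosed_compl)
      (inter_subset_left.trans hK₀N)
  have hbT : b ∈ T := by
    refine ⟨hbK₀, ?_⟩
    simp only [mem_compl_iff, Metric.mem_ball, not_lt]
    linarith
  obtain ⟨c, hcT, hcG⟩ := boundary_bumping (G := (Metric.closedBall s ε)ᶜ) hK₀c hT inter_subset_left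
    Metric.isClosed_closedBall.isOpen_compl
    (fun x hx => ⟨hx.1, fun h => hx.2 (Metric.ball_subset_closedBall h)⟩) hbT
    (fun h => h hsK₀ (Metric.mem_closedBall_self hεpos.le))
  have hcb : c ≠ b := by
    rintro rfl
    apply hcG
    simp only [mem_compl_iff, Metric.mem_closedBall, not_le]
    linarith
  set K' := closure (connectedComponentIn T b) with hK'
  have hK'c : IsPreconnected K' := isPreconnected_connectedComponentIn.closure
  have hK'T : K' ⊆ T := closure_minimal (connectedComponentIn_subset _ _) hT.isClosed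
  have hbK' : b ∈ K' := subset_closure (mem_connectedComponentIn hbT)
  have hcK' : c ∈ K' := subset_closure hcT
  have hsK' : s ∉ K' := fun h => (hK'T h).2 (Metric.mem_ball_self hεpos)
  obtain ⟨L, hL, hLc, hsL, hLK, hL'⟩ := exists_component cip hK'c isClosed_closure ⟨b, hbK'⟩ hsK'
  obtain ⟨p, hpK, hcl, hpL⟩ := exists_root cip hK'c ⟨b, hbK'⟩ hL hLc ⟨s, hsL⟩ hLK hL'
  -- almost all `K k` are contained in `L`
  have hKL : ∀ᶠ k in (F : Filter ℕ), K k ⊆ L := by
    have h1 := hsK₀ L (hL.mem_nhds hsL)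
    refine h1.mono fun k hk => ?_
    have h2 := isPreconnected_iff_subset_of_disjoint.1 (hKc k) L (K'ᶜ \ L) hL hL'
      (by
        intro x hx
        by_cases hxL : x ∈ L
        · exact Or.inl hxL
        · refine Or.inr ⟨fun hxK' => ?_, hxL⟩
          exact Set.disjoint_left.1 (hdisj k) hx (hK₀Ks (hK'T hxK').1))
      (by
        apply Set.eq_empty_of_forall_notMem
        rintro x ⟨_, h1, h2⟩
        exact h2.2 h1)
    rcases h2 with h2 | h2
    · exact h2
    · obtain ⟨w, hw1, hw2⟩ := hk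
      exact absurd hw1 (h2 hw2).2
  have hK'cl : ∀ z ∈ K', z = p := by
    intro z hz
    have hzcl : z ∈ closure L := by
      rw [mem_closure_iff_nhds]
      intro O hO
      obtain ⟨k, hk1, hk2⟩ := (((hK'T hz).1 O hO).and hKL).exists
      exact hk1.mono (inter_subset_inter_right _ hk2)
    rw [hcl] at hzcl
    rcases hzcl with h | h
    · exact h
    · exact absurd hz (hLK h)
  exact hcb ((hK'cl c hcK').trans (hK'cl b hbK').symm)

/-- At a point with a compact neighbourhood there are arbitrarily small connected neighbourhoods. -/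
theorem cik_of_compact_nhds (cip : CIP X) {p : X} {N : Set X} (hN : IsCompact N) (hp : N ∈ 𝓝 p)
    {O : Set X} (hO : O ∈ 𝓝 p) : ∃ G ∈ 𝓝 p, G ⊆ O ∧ IsPreconnected G := by
  obtain ⟨r, hr, hrO⟩ := Metric.nhds_basis_closedBall.mem_iff.1 hO
  have h1 : IsCompact (N ∩ Metric.closedBall p r) := hN.inter_right Metric.isClosed_closedBall
  have h2 : N ∩ Metric.closedBall p r ∈ 𝓝 p := inter_mem hp (Metric.closedBall_mem_nhds p hr)
  exact ⟨_, component_mem_nhds cip h1 h2,
    (connectedComponentIn_subset _ _).trans (inter_subset_right.trans hrO),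
    isPreconnected_connectedComponentIn⟩

/-- The points at which the space has small connected neighbourhoods or a compact neighbourhood. -/
def Nice (p : X) : Prop :=
  (∃ N ∈ 𝓝 p, IsCompact N) ∨ ∀ O ∈ 𝓝 p, ∃ G ∈ 𝓝 p, G ⊆ O ∧ IsPreconnected G

theorem Nice.cik (cip : CIP X) {p : X} (h : Nice p) {O : Set X} (hO : O ∈ 𝓝 p) :
    ∃ G ∈ 𝓝 p, G ⊆ O ∧ IsPreconnected G := by
  rcases h with ⟨N, hN, hNc⟩ | h
  · exact cik_of_compact_nhds cip hNc hN hO
  · exact h O hO

/-- If a set has a disconnected complement, it contains the boundary of an open set, which is neither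
empty nor dense; and the given points of the complement are on either side. -/
theorem exists_frontier_subset {C : Set X} (h : ¬ IsPreconnected Cᶜ) :
    ∃ U : Set X, IsOpen U ∧ U.Nonempty ∧ (closure U)ᶜ.Nonempty ∧ frontier U ⊆ C := by
  rw [IsPreconnected] at h
  push Not at h
  obtain ⟨u, v, hu, hv, hcov, hune, hvne, hemp⟩ := h
  have hd1 : Disjoint (closure (Cᶜ ∩ u)) (Cᶜ ∩ v) := by
    rw [Set.disjoint_left]
    rintro x hx ⟨hxC, hxv⟩
    obtain ⟨w, hw1, hw2, hw3⟩ := mem_closure_iff.1 hx v hv hxv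
    have : w ∈ Cᶜ ∩ (u ∩ v) := ⟨hw2, hw3, hw1⟩
    rw [hemp] at this
    exact this
  have hd2 : Disjoint (Cᶜ ∩ u) (closure (Cᶜ ∩ v)) := by
    rw [Set.disjoint_left]
    rintro x ⟨hxC, hxu⟩ hx
    obtain ⟨w, hw1, hw2, hw3⟩ := mem_closure_iff.1 hx u hu hxu
    have : w ∈ Cᶜ ∩ (u ∩ v) := ⟨hw2, hw1, hw3⟩
    rw [hemp] at this
    exact this
  have h1 : SeparatedNhds (Cᶜ ∩ u) (Cᶜ ∩ v) := by
    rw [separatedNhds_iff_disjoint]
    exact completely_normal hd1 hd2
  obtain ⟨U, V, hU, hV, hU', hV', hUV⟩ := h1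
  refine ⟨U, hU, hune.mono hU', ?_, ?_⟩
  · obtain ⟨w, hw⟩ := hvne
    refine ⟨w, fun hw' => ?_⟩
    obtain ⟨z, hz1, hz2⟩ := mem_closure_iff.1 hw' V hV (hV' hw)
    exact Set.disjoint_left.1 hUV hz2 hz1
  · rintro x ⟨hx1, hx2⟩
    rw [hU.interior_eq] at hx2
    by_contra hxC
    rcases hcov hxC with h | h
    · exact hx2 (hU' ⟨hxC, h⟩)
    · obtain ⟨z, hz1, hz2⟩ := mem_closure_iff.1 hx1 V hV (hV' ⟨hxC, h⟩)
      exact Set.disjoint_left.1 hUV hz2 hz1

end metric

end Pool.Agent.H.MP_0e7155_gt
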