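import Pool.Agent.H.MP_0e7155_gt.LocComp

set_option autoImplicit false

/-!
# Separators
-/

open Set Filter Topology

namespace Pool.Agent.H.MP_0e7155_gt

set_option linter.unusedSectionVars false
set_option linter.unusedVariables false

variable {X : Type*} [MetricSpace X] [PreconnectedSpace X]

/-- The space is connected if all cut points are nice and a point outside of `C` is nice. -/
theorem preconnected_compl_of_nice (cip : CIP X) {C : Set X}
    (hC : ∀ p ∈ C, IsPreconnected ({p}ᶜ : Set X))
    (hcut : ∀ p : X, ¬ IsPreconnected ({p}ᶜ : Set X) → Nice p) (hx : ∃ x, x ∉ C ∧ Nice x) :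
    IsPreconnected Cᶜ := by
  by_contra hcon
  obtain ⟨x, hxC, hxn⟩ := hx
  -- an open set with boundary in `C` that contains `x`
  obtain ⟨U, hU, hxU, ⟨y, hy⟩, hUC⟩ : ∃ U : Set X, IsOpen U ∧ x ∈ U ∧ (∃ y, y ∉ closure U) ∧
      frontier U ⊆ C := by
    obtain ⟨U, hU, hUne, hUc, hUC⟩ := exists_frontier_subset hcon
    by_cases hxU : x ∈ U
    · obtain ⟨y, hy⟩ := hUc
      exact ⟨U, hU, hxU, ⟨y, hy⟩, hUC⟩
    · have hxcl : x ∉ closure U := fun h => hxC (hUC ⟨h, by rwa [hU.interior_eq]⟩)
      refine ⟨(closure U)ᶜ, isClosed_closure.isOpen_compl, hxcl, ?_, ?_⟩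
      · obtain ⟨y, hy⟩ := hUne
        refine ⟨y, fun h => ?_⟩
        obtain ⟨z, hz1, hz2⟩ := mem_closure_iff.1 h U hU hy
        exact hz2 (subset_closure hz1)
      · rw [frontier_compl]
        exact frontier_closure_subset.trans hUC
  obtain ⟨p, hpU, L, hL, hLc, hcl, hpL, hyL, hor, hA⟩ :=
    main_lemma cip hU hxU hy (fun s hs => hC s (hUC hs))
  have hpn : Nice p := by
    rcases hor with h | h
    · rw [h]; exact hxn
    · exact hcut p h
  obtain ⟨G, hG, hGU, hGc⟩ := hpn.cik cip (hU.mem_nhds hpU)
  have hpcl : p ∈ closure L := by rw [hcl]; exact mem_insert _ _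
  have h1 : G ∩ closure L ⊆ {p} :=
    hA _ (cip _ _ hGc hLc.closure) ⟨mem_of_mem_nhds hG, hpcl⟩ (inter_subset_left.trans hGU)
      inter_subset_right
  obtain ⟨a, haG, haL⟩ := mem_closure_iff_nhds.1 hpcl G hG
  have := h1 ⟨haG, subset_closure haL⟩
  rw [mem_singleton_iff] at this
  exact hpL (this ▸ haL)

/-- `N` contains the boundary of an open set that is neither empty nor dense. -/
def Sep {X : Type*} [TopologicalSpace X] (N : Set X) : Prop :=
  ∃ U : Set X, IsOpen U ∧ U.Nonempty ∧ (closure U)ᶜ.Nonempty ∧ frontier U ⊆ N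

theorem Sep.mono {X : Type*} [TopologicalSpace X] {N N' : Set X} (h : Sep N) (hN : N ⊆ N') : Sep N' := by
  obtain ⟨U, h1, h2, h3, h4⟩ := h
  exact ⟨U, h1, h2, h3, h4.trans hN⟩

theorem preconnected_compl_of_not_sep {C : Set X} (h : ¬ Sep C) : IsPreconnected Cᶜ := by
  by_contra hcon
  exact h (exists_frontier_subset hcon)

theorem not_preconnected_compl_frontier {X : Type*} [TopologicalSpace X] {U : Set X} (hU : IsOpen U)
    (h1 : U.Nonempty) (h2 : (closure U)ᶜ.Nonempty) : ¬ IsPreconnected (frontier U)ᶜ := by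
  intro h
  have h3 := isPreconnected_iff_subset_of_disjoint.1 h U (closure U)ᶜ hU isClosed_closure.isOpen_compl
    (by
      intro x hx
      by_cases hxU : x ∈ U
      · exact Or.inl hxU
      · right
        intro hxc
        exact hx ⟨hxc, by rwa [hU.interior_eq]⟩)
    (by
      apply Set.eq_empty_of_forall_notMem
      rintro x ⟨_, h2, h3⟩
      exact h3 (subset_closure h2))
  rcases h3 with h3 | h3
  · obtain ⟨y, hy⟩ := h2
    exact hy (subset_closure (h3 fun h => hy h.1))
  · obtain ⟨y, hy⟩ := h1
    exact h3 (fun h => h.2 (by rwa [hU.interior_eq])) (subset_closure hy)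

/-- The sets without separators form an ideal. -/
theorem not_sep_union (cip : CIP X) {N₁ N₂ : Set X} (h₁ : ¬ Sep N₁) (h₂ : ¬ Sep N₂) :
    ¬ Sep (N₁ ∪ N₂) := by
  rintro ⟨U, hU, hne, hne', hfr⟩
  apply not_preconnected_compl_frontier hU hne hne'
  have h3 : IsPreconnected (frontier U ∩ N₁)ᶜ :=
    preconnected_compl_of_not_sep fun h => h₁ (h.mono inter_subset_right)
  have h4 : IsPreconnected (frontier U ∩ N₂)ᶜ :=
    preconnected_compl_of_not_sep fun h => h₂ (h.mono inter_subset_right)
  have h5 := cip _ _ h3 h4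
  have heq : (frontier U ∩ N₁)ᶜ ∩ (frontier U ∩ N₂)ᶜ = (frontier U)ᶜ := by
    rw [← compl_union, ← inter_union_distrib_left, inter_eq_left.2 hfr]
  rwa [heq] at h5

theorem not_sep_empty : ¬ Sep (∅ : Set X) := by
  rintro ⟨U, hU, hne, hne', hfr⟩
  have h1 : IsClopen U := by
    rw [isClopen_iff_frontier_eq_empty]
    exact subset_empty_iff.1 hfr
  rcases isClopen_iff.1 h1 with h | h
  · rw [h] at hne; exact not_nonempty_empty hne
  · rw [h, closure_univ, compl_univ] at hne'; exact not_nonempty_empty hne'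

theorem not_sep_singleton {p : X} (hp : IsPreconnected ({p}ᶜ : Set X)) : ¬ Sep ({p} : Set X) := by
  rintro ⟨U, hU, hne, hne', hfr⟩
  rcases subset_singleton_iff_eq.1 hfr with h | h
  · exact not_sep_empty ⟨U, hU, hne, hne', h.le⟩
  · apply not_preconnected_compl_frontier hU hne hne'
    rwa [h]

/-- The boundary may be taken to be the boundary of a regular open set. -/
theorem Sep.regular {N : Set X} (h : Sep N) : ∃ U : Set X, IsOpen U ∧ U.Nonempty ∧
    (closure U)ᶜ.Nonempty ∧ frontier U ⊆ N ∧ (frontier U).Nonempty ∧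
    ∀ s ∈ frontier U, s ∈ closure (closure U)ᶜ := by
  obtain ⟨U, hU, hne, hne', hfr⟩ := h
  have hcl : closure (interior (closure U)) = closure U := by
    apply Subset.antisymm
    · exact (closure_mono interior_subset).trans isClosed_closure.closure_eq.le
    · exact closure_mono (hU.subset_interior_iff.2 subset_closure)
  have hne1 : (interior (closure U)).Nonempty := hne.mono (hU.subset_interior_iff.2 subset_closure)
  have hfr1 : frontier (interior (closure U)) = frontier (closure U) := by
    rw [frontier, frontier, hcl, interior_interior, isClosed_closure.closure_eq]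
  have hsub : frontier (interior (closure U)) ⊆ N := by
    rw [hfr1]; exact frontier_closure_subset.trans hfr
  refine ⟨interior (closure U), isOpen_interior, hne1, ?_, hsub, ?_, ?_⟩
  · rwa [hcl]
  · by_contra hemp
    rw [not_nonempty_iff_eq_empty] at hemp
    exact not_sep_empty (X := X) ⟨interior (closure U), isOpen_interior, hne1, by rwa [hcl], hemp.le⟩
  · intro s hs
    have h := hs.2
    rw [interior_interior] at h
    rw [hcl, closure_compl]
    exact h

/-- No separator consisting of non-cut points contains only points of local compactness. -/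
theorem not_sep_of_locallyCompact (cip : CIP X) {C : Set X}
    (hC : ∀ p ∈ C, IsPreconnected ({p}ᶜ : Set X)) (hloc : ∀ p ∈ C, ∃ N ∈ 𝓝 p, IsCompact N) :
    ¬ Sep C := by
  intro hsep
  obtain ⟨U, hU, hne, hne', hfr, ⟨s, hs⟩, hs'⟩ := hsep.regular
  obtain ⟨N, hN, hNc⟩ := hloc s (hfr hs)
  have hK := component_mem_nhds cip hNc hN
  set K := connectedComponentIn N s with hKdef
  have hKc : IsPreconnected K := isPreconnected_connectedComponentIn
  have hKcl : IsClosed K := by
    rw [← closure_subset_iff_isClosed]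
    exact hKc.closure.subset_connectedComponentIn (subset_closure (mem_of_mem_nhds hK))
      (closure_minimal (connectedComponentIn_subset _ _) hNc.isClosed)
  have hKcomp : IsCompact K := hNc.of_isClosed_subset hKcl (connectedComponentIn_subset _ _)
  have : CompactSpace K := isCompact_iff_compactSpace.1 hKcomp
  have : PreconnectedSpace K := isPreconnected_iff_preconnectedSpace.1 hKc
  have hcipK : CIP K := by
    intro A B hA hB
    have h1 := cip _ _ (hA.image _ continuous_subtype_val.continuousOn)
      (hB.image _ continuous_subtype_val.continuousOn)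
    rw [← image_inter Subtype.val_injective] at h1
    exact (IsInducing.subtypeVal.isPreconnected_image).1 h1
  have h1 : IsPreconnected ((Subtype.val ⁻¹' (frontier U) : Set K)ᶜ) := by
    refine preconnected_compl_of_nice hcipK ?_ ?_ ?_
    · intro p hp
      have h2 := cip _ _ (hC p (hfr hp)) hKc
      have h3 : (Subtype.val '' ({p}ᶜ : Set K) : Set X) = {(p : X)}ᶜ ∩ K := by
        ext x
        constructor
        · rintro ⟨q, hq, rfl⟩
          exact ⟨fun h => hq (Subtype.ext h), q.2⟩
        · rintro ⟨hx, hxK⟩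
          exact ⟨⟨x, hxK⟩, fun h => hx (congrArg Subtype.val h), rfl⟩
      rw [← h3] at h2
      exact (IsInducing.subtypeVal.isPreconnected_image).1 h2
    · exact fun p _ => Or.inl ⟨univ, univ_mem, isCompact_univ⟩
    · obtain ⟨z, hz1, hz2⟩ := mem_closure_iff_nhds.1 hs.1 K hK
      exact ⟨⟨z, hz1⟩, fun h => h.2 (by rwa [hU.interior_eq]), Or.inl ⟨univ, univ_mem, isCompact_univ⟩⟩
  have h2 := h1.image _ continuous_subtype_val.continuousOn
  obtain ⟨z, hz1, hz2⟩ := mem_closure_iff_nhds.1 hs.1 K hK
  obtain ⟨w, hw1, hw2⟩ := mem_closure_iff_nhds.1 (hs' s hs) K hK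
  have h3 := isPreconnected_iff_subset_of_disjoint.1 h2 U (closure U)ᶜ hU isClosed_closure.isOpen_compl
    (by
      rintro x ⟨q, hq, rfl⟩
      by_cases hxU : (q : X) ∈ U
      · exact Or.inl hxU
      · right
        intro hxc
        exact hq ⟨hxc, by rwa [hU.interior_eq]⟩)
    (by
      apply Set.eq_empty_of_forall_notMem
      rintro x ⟨_, h2, h3⟩
      exact h3 (subset_closure h2))
  rcases h3 with h3 | h3
  · exact hw2 (subset_closure (h3 ⟨⟨w, hw1⟩, fun h => hw2 h.1, rfl⟩))
  · exact h3 ⟨⟨z, hz1⟩, fun h => h.2 (by rwa [hU.interior_eq]), rfl⟩ (subset_closure hz2)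

end Pool.Agent.H.MP_0e7155_gt
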